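import Pool.Agent.H73.Frog.Mach
import Pool.Agent.H92.Frog.Cert

/-!
# A certificate in natural numbers gives an abstract potential
-/

set_option autoImplicit false

open scoped ENNReal

namespace Pool.Agent.H38.Frog

open Pool.Agent.H92.Frog Pool.Agent.H73.Frog

/-- The pair `(a0, a)` dominates `φ` through the test functions. -/
def Feas (C : Cert) (φ : ℕ → Fin (C.N + 2) → ℝ≥0∞) (p : ℝ≥0∞ × (Fin C.r → ℝ≥0∞)) : Prop :=
  ∀ k s, s ≠ 0 → φ k s ≤ p.1 + ∑ j, p.2 j * (C.h j k s : ℝ≥0∞)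

/-- The upper expectation defined by the certificate. -/
noncomputable def EC (C : Cert) (φ : ℕ → Fin (C.N + 2) → ℝ≥0∞) (σ : Fin 4 → Fin (C.N + 2))
    (n : ℕ) : ℝ≥0∞ :=
  ⨅ (p : ℝ≥0∞ × (Fin C.r → ℝ≥0∞)) (_ : Feas C φ p), p.1 + ∑ j, p.2 j * (C.U j σ n : ℝ≥0∞)

theorem EC_le {C : Cert} {φ : ℕ → Fin (C.N + 2) → ℝ≥0∞} {p : ℝ≥0∞ × (Fin C.r → ℝ≥0∞)}
    (hp : Feas C φ p) (σ : Fin 4 → Fin (C.N + 2)) (n : ℕ) :
    EC C φ σ n ≤ p.1 + ∑ j, p.2 j * (C.U j σ n : ℝ≥0∞) :=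
  iInf₂_le p hp

theorem le_EC {C : Cert} {φ : ℕ → Fin (C.N + 2) → ℝ≥0∞} {σ : Fin 4 → Fin (C.N + 2)} {n : ℕ}
    {x : ℝ≥0∞} (h : ∀ p : ℝ≥0∞ × (Fin C.r → ℝ≥0∞), Feas C φ p →
      x ≤ p.1 + ∑ j, p.2 j * (C.U j σ n : ℝ≥0∞)) : x ≤ EC C φ σ n :=
  le_iInf₂ h

theorem EC_mono (C : Cert) (φ ψ : ℕ → Fin (C.N + 2) → ℝ≥0∞) (σ : Fin 4 → Fin (C.N + 2)) (n : ℕ)
    (h : ∀ k s, φ k s ≤ ψ k s) : EC C φ σ n ≤ EC C ψ σ n :=
  le_EC fun _ hp => EC_le (fun k s hs => (h k s).trans (hp k s hs)) σ n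

theorem EC_perm (C : Cert) (φ : ℕ → Fin (C.N + 2) → ℝ≥0∞) (σ : Fin 4 → Fin (C.N + 2)) (n : ℕ)
    (π : Equiv.Perm (Fin 4)) : EC C φ (σ ∘ π) n = EC C φ σ n := by
  unfold EC
  simp only [C.U_perm]

/-- Comparison of a value of `φ` with the upper expectation. -/
theorem val_le_EC (C : Cert) (φ : ℕ → Fin (C.N + 2) → ℝ≥0∞) (σ : Fin 4 → Fin (C.N + 2)) (n : ℕ)
    (s : Fin (C.N + 2)) (hs : s ≠ 0) (h : ∀ i, C.h i 0 s ≤ C.U i σ n) : φ 0 s ≤ EC C φ σ n := by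
  refine le_EC fun p hp => (hp 0 s hs).trans ?_
  gcongr with j _
  exact h j

theorem alg {r : ℕ} (A : ℝ≥0∞) (b X : Fin r → ℝ≥0∞) (Y : Fin r → Fin 4 → ℝ≥0∞) :
    4 * (A + ∑ i, b i * X i) + ∑ x : Fin 4, 4 * (A + ∑ i, b i * Y i x) =
      20 * A + ∑ i, b i * (4 * X i + ∑ x : Fin 4, 4 * Y i x) := by
  have h : ∑ i, b i * (4 * X i + ∑ x : Fin 4, 4 * Y i x) =
      4 * ∑ i, b i * X i + (4 * ∑ i, b i * Y i 0 + 4 * ∑ i, b i * Y i 1 +
        4 * ∑ i, b i * Y i 2 + 4 * ∑ i, b i * Y i 3) := by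
    simp only [Finset.mul_sum, ← Finset.sum_add_distrib]
    refine Finset.sum_congr rfl fun i _ => ?_
    rw [Fin.sum_univ_four]
    ring
  rw [h, Fin.sum_univ_four]
  ring

theorem EC_step (C : Cert) (φ : ℕ → Fin (C.N + 2) → ℝ≥0∞) (σ : Fin 4 → Fin (C.N + 2)) (n : ℕ) :
    4 * EC C (fun k s => φ (k + 1) s) σ n +
      ∑ i : Fin 4, 4 * EC C (fun k s => EC C φ (Function.update σ i s) (n + k)) (C.ch (σ i))
        (start (σ i)) ≤ 20 * EC C φ σ (n + 1) := by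
  have h20 : (20 : ℝ≥0∞) ≠ 0 := by norm_num
  have h20' : (20 : ℝ≥0∞) ≠ ⊤ := by norm_num
  rw [mul_comm (20 : ℝ≥0∞), ← ENNReal.div_le_iff_le_mul (Or.inl h20) (Or.inl h20')]
  refine le_EC fun p hp => ?_
  rw [ENNReal.div_le_iff_le_mul (Or.inl h20) (Or.inl h20'), mul_comm _ (20 : ℝ≥0∞)]
  choose m a0 a c0 c hm h1 h2 h3 using fun i => C.step i σ n
  have hm0 : ∀ i, (m i : ℝ≥0∞) ≠ 0 := fun i => by exact_mod_cast (hm i).ne'
  have hmt : ∀ i, (m i : ℝ≥0∞) ≠ ⊤ := fun i => ENNReal.natCast_ne_top _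
  set b : Fin C.r → ℝ≥0∞ := fun i => p.2 i / m i with hb
  have hbm : ∀ i, b i * m i = p.2 i := fun i => ENNReal.div_mul_cancel (hm0 i) (hmt i)
  -- the first term
  have e1 : EC C (fun k s => φ (k + 1) s) σ n ≤
      p.1 + ∑ i, b i * ((a0 i : ℝ≥0∞) + ∑ j, (a i j : ℝ≥0∞) * (C.U j σ n : ℝ≥0∞)) := by
    refine (EC_le (p := (p.1 + ∑ i, b i * (a0 i : ℝ≥0∞), fun j => ∑ i, b i * (a i j : ℝ≥0∞)))
      ?_ σ n).trans (le_of_eq ?_)
    · intro k s hs
      refine (hp (k + 1) s hs).trans ?_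
      simp only
      rw [add_assoc]
      gcongr
      have : ∀ i, p.2 i * (C.h i (k + 1) s : ℝ≥0∞) ≤
          b i * ((a0 i : ℝ≥0∞) + ∑ j, (a i j : ℝ≥0∞) * (C.h j k s : ℝ≥0∞)) := by
        intro i
        rw [← hbm i, mul_assoc]
        gcongr
        exact_mod_cast h1 i k s hs
      refine (Finset.sum_le_sum fun i _ => this i).trans (le_of_eq ?_)
      simp only [mul_add, Finset.sum_add_distrib, Finset.mul_sum, Finset.sum_mul]
      congr 1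
      rw [Finset.sum_comm]
      simp only [mul_assoc]
    · simp only [mul_add, Finset.sum_add_distrib, Finset.mul_sum, Finset.sum_mul]
      rw [add_assoc]
      congr 2
      rw [Finset.sum_comm]
      simp only [mul_assoc]
  have e2 : ∀ x : Fin 4, EC C (fun k s => EC C φ (Function.update σ x s) (n + k)) (C.ch (σ x))
        (start (σ x)) ≤
      p.1 + ∑ i, b i * ((c0 i x : ℝ≥0∞) + ∑ j, (c i x j : ℝ≥0∞) *
        (C.U j (C.ch (σ x)) (start (σ x)) : ℝ≥0∞)) := by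
    intro x
    refine (EC_le (p := (p.1 + ∑ i, b i * (c0 i x : ℝ≥0∞), fun j => ∑ i, b i * (c i x j : ℝ≥0∞)))
      ?_ _ _).trans (le_of_eq ?_)
    · intro k s hs
      refine (EC_le hp _ _).trans ?_
      simp only
      rw [add_assoc]
      gcongr
      have : ∀ i, p.2 i * (C.U i (Function.update σ x s) (n + k) : ℝ≥0∞) ≤
          b i * ((c0 i x : ℝ≥0∞) + ∑ j, (c i x j : ℝ≥0∞) * (C.h j k s : ℝ≥0∞)) := by
        intro i
        rw [← hbm i, mul_assoc]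
        gcongr
        exact_mod_cast h2 i x k s hs
      refine (Finset.sum_le_sum fun i _ => this i).trans (le_of_eq ?_)
      simp only [mul_add, Finset.sum_add_distrib, Finset.mul_sum, Finset.sum_mul]
      congr 1
      rw [Finset.sum_comm]
      simp only [mul_assoc]
    · simp only [mul_add, Finset.sum_add_distrib, Finset.mul_sum, Finset.sum_mul]
      rw [add_assoc]
      congr 2
      rw [Finset.sum_comm]
      simp only [mul_assoc]
  have e3 : ∀ i, 4 * ((a0 i : ℝ≥0∞) + ∑ j, (a i j : ℝ≥0∞) * (C.U j σ n : ℝ≥0∞)) +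
      ∑ x : Fin 4, 4 * ((c0 i x : ℝ≥0∞) + ∑ j, (c i x j : ℝ≥0∞) *
        (C.U j (C.ch (σ x)) (start (σ x)) : ℝ≥0∞)) ≤ 20 * (m i * (C.U i σ (n + 1) : ℝ≥0∞)) := by
    intro i
    exact_mod_cast h3 i
  calc 4 * EC C (fun k s => φ (k + 1) s) σ n +
      ∑ i : Fin 4, 4 * EC C (fun k s => EC C φ (Function.update σ i s) (n + k)) (C.ch (σ i))
        (start (σ i))
      ≤ 4 * (p.1 + ∑ i, b i * ((a0 i : ℝ≥0∞) + ∑ j, (a i j : ℝ≥0∞) * (C.U j σ n : ℝ≥0∞))) +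
        ∑ x : Fin 4, 4 * (p.1 + ∑ i, b i * ((c0 i x : ℝ≥0∞) + ∑ j, (c i x j : ℝ≥0∞) *
        (C.U j (C.ch (σ x)) (start (σ x)) : ℝ≥0∞))) := by
        gcongr with x _
        exact e2 x
    _ = 20 * p.1 + ∑ i, b i * (4 * ((a0 i : ℝ≥0∞) + ∑ j, (a i j : ℝ≥0∞) * (C.U j σ n : ℝ≥0∞)) +
      ∑ x : Fin 4, 4 * ((c0 i x : ℝ≥0∞) + ∑ j, (c i x j : ℝ≥0∞) *
        (C.U j (C.ch (σ x)) (start (σ x)) : ℝ≥0∞))) := by
        exact alg p.1 b (fun i => (a0 i : ℝ≥0∞) + ∑ j, (a i j : ℝ≥0∞) * (C.U j σ n : ℝ≥0∞))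
          (fun i x => (c0 i x : ℝ≥0∞) + ∑ j, (c i x j : ℝ≥0∞) *
            (C.U j (C.ch (σ x)) (start (σ x)) : ℝ≥0∞))
    _ ≤ 20 * p.1 + ∑ i, b i * (20 * (m i * (C.U i σ (n + 1) : ℝ≥0∞))) := by
        gcongr with i _
        exact e3 i
    _ = 20 * (p.1 + ∑ j, p.2 j * (C.U j σ (n + 1) : ℝ≥0∞)) := by
        rw [mul_add, Finset.mul_sum]
        congr 1
        refine Finset.sum_congr rfl fun i _ => ?_
        rw [← hbm i]
        ring

/-- The root constant of the certificate. -/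
noncomputable def rootC (C : Cert) : ℕ := C.root.choose

theorem R_step (C : Cert) (σ : Fin 4 → Fin (C.N + 2)) (n : ℕ) :
    20 + ∑ i : Fin 4, 5 * EC C (fun k _ => (rootC C : ℝ≥0∞) * ((n + k : ℕ) : ℝ≥0∞)) (C.ch (σ i))
        (start (σ i)) ≤ 20 * ((rootC C : ℝ≥0∞) * ((n + 1 : ℕ) : ℝ≥0∞)) := by
  obtain ⟨b0, b, h1, h2⟩ := C.root.choose_spec
  change ∀ k s, s ≠ 0 → rootC C * k ≤ b0 + ∑ j, b j * C.h j k s at h1
  change ∀ s, b0 + ∑ j, b j * C.U j (C.ch s) (start s) < rootC C at h2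
  have e : ∀ i : Fin 4, EC C (fun k _ => (rootC C : ℝ≥0∞) * ((n + k : ℕ) : ℝ≥0∞)) (C.ch (σ i))
        (start (σ i)) ≤ ((rootC C * n + (rootC C - 1) : ℕ) : ℝ≥0∞) := by
    intro i
    refine (EC_le (p := (((rootC C * n + b0 : ℕ) : ℝ≥0∞), fun j => (b j : ℝ≥0∞))) ?_ _ _).trans ?_
    · intro k s hs
      have := h1 k s hs
      have h3 : rootC C * (n + k) ≤ rootC C * n + b0 + ∑ j, b j * C.h j k s := by
        rw [mul_add]; omega
      dsimp only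
      exact_mod_cast h3
    · have := h2 (σ i)
      have h3 : rootC C * n + b0 + ∑ j, b j * C.U j (C.ch (σ i)) (start (σ i)) ≤
          rootC C * n + (rootC C - 1) := by omega
      dsimp only
      exact_mod_cast h3
  have hpos : 0 < rootC C := lt_of_le_of_lt (Nat.zero_le _) (h2 0)
  calc 20 + ∑ i : Fin 4, 5 * EC C (fun k _ => (rootC C : ℝ≥0∞) * ((n + k : ℕ) : ℝ≥0∞))
        (C.ch (σ i)) (start (σ i))
      ≤ 20 + ∑ _i : Fin 4, 5 * ((rootC C * n + (rootC C - 1) : ℕ) : ℝ≥0∞) := by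
        gcongr with i _
        exact e i
    _ = ((20 * (rootC C * (n + 1)) : ℕ) : ℝ≥0∞) := by
        rw [Finset.sum_const, Finset.card_univ, Fintype.card_fin]
        obtain ⟨k, hk⟩ : ∃ k, rootC C = k + 1 := ⟨rootC C - 1, by omega⟩
        rw [hk]
        simp only [Nat.add_sub_cancel, nsmul_eq_mul]
        push_cast
        ring
    _ = 20 * ((rootC C : ℝ≥0∞) * ((n + 1 : ℕ) : ℝ≥0∞)) := by push_cast; ring

/-- The abstract potential defined by a certificate. -/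
noncomputable def potOfCert (C : Cert) : Pot where
  T := Fin (C.N + 2)
  F := 0
  L := 1
  ch := C.ch
  chF := C.ch0
  chL := C.ch1
  le := C.le
  le_cases := C.le_cases
  cs := C.cs
  cs_le := C.cs_le
  E := EC C
  R := fun _ n => (rootC C : ℝ≥0∞) * (n : ℝ≥0∞)
  E_mono := EC_mono C
  E_perm := EC_perm C
  E_zero := fun φ σ => val_le_EC C φ σ 0 _ (C.cs_ne σ) fun i => C.zero i σ
  E_fresh := fun ψ => le_EC fun p hp => (EC_le hp _ _).trans (by
    gcongr with j _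
    exact C.fresh j)
  E_truncF := fun ψ => val_le_EC C ψ _ 2 _ (by
    intro h
    have := congrArg Fin.val h
    simp at this) C.truncF
  E_trunc := fun ψ s hs => val_le_EC C ψ _ 1 s hs fun i => C.trunc i s hs
  E_step := by
    intro φ σ n
    have := EC_step C φ σ n
    unfold start at this
    convert this
  R_step := by
    intro σ n
    have := R_step C σ n
    unfold start at this
    convert this

open MeasureTheory ProbabilityTheory in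
/-- A certificate makes the frog model on the 4-ary tree transient. -/
theorem transient_of_cert (C : Cert) :
    ∀ (Ω : Type) [MeasurableSpace Ω] (P : Measure Ω) [IsProbabilityMeasure P]
      (ξ : List (Fin 4) → ℕ → Ω → Fin 4 × Fin 5),
      (∀ v k, Measurable (ξ v k)) →
      iIndepFun (fun p : List (Fin 4) × ℕ => ξ p.1 p.2) P →
      (∀ v k (c : Fin 4 × Fin 5), P (ξ v k ⁻¹' {c}) = 1 / 20) →
      ∀ (S : List (Fin 4) → ℕ → Ω → List (Fin 4)),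
      (∀ v ω, S v 0 ω = v) →
      (∀ v k ω, S v (k + 1) ω =
        if S v k ω = [] then [(ξ v k ω).1]
        else if (ξ v k ω).2 = 0 then (S v k ω).tail
        else (ξ v k ω).1 :: S v k ω) →
      ∀ᵐ ω ∂P, Set.Finite
        {p : List (Fin 4) × ℕ |
          (∀ A : Set (List (Fin 4)), [] ∈ A →
              (∀ v ∈ A, ∀ k, S v k ω ∈ A) → p.1 ∈ A) ∧
          S p.1 p.2 ω = []} :=
  transient_of_pot (potOfCert C) (by
    change (rootC C : ℝ≥0∞) * ((1 : ℕ) : ℝ≥0∞) ≠ ⊤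
    exact ENNReal.mul_ne_top (ENNReal.natCast_ne_top _) (ENNReal.natCast_ne_top _))

end Pool.Agent.H38.Frog
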